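import Mathlib

set_option autoImplicit false

namespace Pool.Agent.Results.MP_4101c8_co.ConnectedExtremal

open Finset

/-- `S` is a total dominating set: every vertex (of `S` or not) has a neighbour in `S`. -/
def IsTotalDominating {V : Type} (G : SimpleGraph V) (S : Finset V) : Prop :=
  ∀ v : V, ∃ u ∈ S, G.Adj v u

/-- the total domination number: the least size of a total dominating set -/
noncomputable def totalDomNum {V : Type} (G : SimpleGraph V) : ℕ :=
  sInf {k : ℕ | ∃ S : Finset V, IsTotalDominating G S ∧ S.card = k}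

open Classical in
/-- `δ*(G)`, the smaller of the minimum degrees of `G` and of its complement -/
noncomputable def deltaStar {V : Type} [Fintype V] (G : SimpleGraph V) : ℕ :=
  min G.minDegree Gᶜ.minDegree

/-- the differences of non-incident pairs of the Fano plane -/
def D : Finset (ZMod 7) := {0, 3, 5, 6}

/-- `k` disjoint copies of the incidence graph of the complement of the Fano plane -/
def K (k : ℕ) : SimpleGraph (Fin k × Bool × ZMod 7) where
  Adj x y := x.1 = y.1 ∧ x.2.1 ≠ y.2.1 ∧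
    (if x.2.1 then x.2.2 - y.2.2 else y.2.2 - x.2.2) ∈ D
  symm := ⟨by
    rintro ⟨i, s, a⟩ ⟨j, t, b⟩ ⟨h1, h2, h3⟩
    cases s <;> cases t <;> simp_all⟩
  loopless := ⟨by rintro ⟨i, s, a⟩ ⟨h1, h2, h3⟩; exact h2 rfl⟩

instance (k : ℕ) : DecidableRel (K k).Adj := fun x y =>
  inferInstanceAs (Decidable (x.1 = y.1 ∧ x.2.1 ≠ y.2.1 ∧
    (if x.2.1 then x.2.2 - y.2.2 else y.2.2 - x.2.2) ∈ D))

lemma degree_K (k : ℕ) (x : Fin k × Bool × ZMod 7) : (K k).degree x = 4 := by
  obtain ⟨i, s, a⟩ := x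
  have h : (K k).neighborFinset (i, s, a) =
      D.map ⟨fun d => (i, !s, if s then a - d else a + d), by
        intro d e h
        simp only [Prod.mk.injEq, true_and] at h
        cases s <;> simpa using h⟩ := by
    ext ⟨j, t, b⟩
    rw [SimpleGraph.mem_neighborFinset, Finset.mem_map]
    constructor
    · rintro ⟨h1, h2, h3⟩
      refine ⟨_, h3, ?_⟩
      subst h1
      cases s <;> cases t <;> simp_all
    · rintro ⟨d, hd, h⟩
      have h' : (i, !s, if s then a - d else a + d) = (j, t, b) := h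
      rw [Prod.mk.injEq, Prod.mk.injEq] at h'
      obtain ⟨rfl, rfl, rfl⟩ := h'
      refine ⟨rfl, by cases s <;> simp, ?_⟩
      cases s <;> simpa using hd
  rw [← SimpleGraph.card_neighborFinset_eq_degree, h, Finset.card_map]
  decide

lemma minDegree_K (k : ℕ) (hk : 0 < k) : (K k).minDegree = 4 := by
  have : Nonempty (Fin k × Bool × ZMod 7) := ⟨(⟨0, hk⟩, true, 0)⟩
  obtain ⟨v, hv⟩ := (K k).exists_minimal_degree_vertex
  rw [hv, degree_K]

lemma card_V (k : ℕ) : Fintype.card (Fin k × Bool × ZMod 7) = 14 * k := by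
  rw [Fintype.card_prod, Fintype.card_prod, Fintype.card_fin, Fintype.card_bool, ZMod.card]
  ring

lemma minDegree_compl (k : ℕ) (hk : 0 < k) : (K k)ᶜ.minDegree = 14 * k - 5 := by
  have : Nonempty (Fin k × Bool × ZMod 7) := ⟨(⟨0, hk⟩, true, 0)⟩
  obtain ⟨v, hv⟩ := (K k)ᶜ.exists_minimal_degree_vertex
  rw [hv, SimpleGraph.degree_compl, degree_K, card_V]
  omega

lemma deltaStar_compl (k : ℕ) (hk : 0 < k) : deltaStar (K k)ᶜ = 4 := by
  unfold deltaStar
  have h1 : (K k)ᶜᶜ = K k := compl_compl _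
  have h2 : ∀ (i1 : DecidableRel (K k)ᶜ.Adj) (i2 : DecidableRel (K k)ᶜᶜ.Adj),
      min (@SimpleGraph.minDegree _ (K k)ᶜ _ i1) (@SimpleGraph.minDegree _ (K k)ᶜᶜ _ i2) = 4 := by
    rw [h1]
    intro i1 i2
    have e1 : @SimpleGraph.minDegree _ (K k)ᶜ _ i1 = 14 * k - 5 := by
      rw [← minDegree_compl k hk]; congr
    have e2 : @SimpleGraph.minDegree _ (K k) _ i2 = 4 := by
      rw [← minDegree_K k hk]; congr
    rw [e1, e2]
    omega
  exact h2 _ _

lemma adj_compl_of_ne {k : ℕ} {x y : Fin k × Bool × ZMod 7} (h : x.1 ≠ y.1) :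
    (K k)ᶜ.Adj x y := by
  rw [SimpleGraph.compl_adj]
  exact ⟨fun e => h (by rw [e]), fun e => h e.1⟩

lemma connected (k : ℕ) (hk : 2 ≤ k) : (K k)ᶜ.Connected := by
  have : Nonempty (Fin k × Bool × ZMod 7) := ⟨(⟨0, by omega⟩, true, 0)⟩
  refine SimpleGraph.Connected.mk ?_
  intro x y
  by_cases h : x.1 = y.1
  · obtain ⟨j, hj⟩ : ∃ j : Fin k, j ≠ x.1 := by
      by_cases h0 : x.1 = ⟨0, by omega⟩
      · exact ⟨⟨1, by omega⟩, by rw [h0]; simp⟩
      · exact ⟨⟨0, by omega⟩, fun e => h0 e.symm⟩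
    have a1 : (K k)ᶜ.Adj x (j, true, 0) := adj_compl_of_ne (fun e => hj e.symm)
    have a2 : (K k)ᶜ.Adj (j, true, 0) y := adj_compl_of_ne (fun e => hj (e.trans h.symm))
    exact a1.reachable.trans a2.reachable
  · exact (adj_compl_of_ne h).reachable

lemma totalDomNum_compl (k : ℕ) (hk : 2 ≤ k) : totalDomNum (K k)ᶜ = 2 := by
  apply le_antisymm
  · apply Nat.sInf_le
    refine ⟨{(⟨0, by omega⟩, true, 0), (⟨1, by omega⟩, true, 0)}, ?_, ?_⟩
    · intro v
      by_cases h : v.1 = ⟨0, by omega⟩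
      · refine ⟨(⟨1, by omega⟩, true, 0), by simp, adj_compl_of_ne ?_⟩
        rw [h]; simp
      · exact ⟨(⟨0, by omega⟩, true, 0), by simp, adj_compl_of_ne h⟩
    · rw [Finset.card_pair]
      simp
  · apply le_csInf
    · refine ⟨_, Finset.univ, ?_, rfl⟩
      intro v
      by_cases h : v.1 = ⟨0, by omega⟩
      · refine ⟨(⟨1, by omega⟩, true, 0), by simp, adj_compl_of_ne ?_⟩
        rw [h]; simp
      · exact ⟨(⟨0, by omega⟩, true, 0), by simp, adj_compl_of_ne h⟩
    · rintro m ⟨S, hS, rfl⟩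
      obtain ⟨u, hu, -⟩ := hS (⟨0, by omega⟩, true, 0)
      obtain ⟨w, hw, huw⟩ := hS u
      have hne : u ≠ w := huw.ne
      have : ({u, w} : Finset _) ⊆ S := by
        intro z hz
        rw [Finset.mem_insert, Finset.mem_singleton] at hz
        rcases hz with rfl | rfl <;> assumption
      calc 2 = ({u, w} : Finset _).card := (Finset.card_pair hne).symm
        _ ≤ S.card := Finset.card_le_card this

lemma fano : ∀ p q : ZMod 7, ∃ l : ZMod 7, l - p ∉ D ∧ l - q ∉ D := by decide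

lemma fano' : ∀ p q : ZMod 7, ∃ l : ZMod 7, p - l ∉ D ∧ q - l ∉ D := by decide

lemma three (T : Finset (ZMod 7)) (hT : (∀ l : ZMod 7, ∃ p ∈ T, l - p ∈ D) ∨
    (∀ l : ZMod 7, ∃ p ∈ T, p - l ∈ D)) : 3 ≤ T.card := by
  by_contra hcon
  push Not at hcon
  obtain ⟨p, q, hpq⟩ : ∃ p q : ZMod 7, T ⊆ {p, q} := by
    interval_cases h : T.card
    · rw [Finset.card_eq_zero] at h
      exact ⟨0, 0, by simp [h]⟩
    · rw [Finset.card_eq_one] at h
      obtain ⟨a, rfl⟩ := h
      exact ⟨a, a, by simp⟩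
    · rw [Finset.card_eq_two] at h
      obtain ⟨a, b, -, rfl⟩ := h
      exact ⟨a, b, le_rfl⟩
  rcases hT with hT | hT
  · obtain ⟨l, h1, h2⟩ := fano p q
    obtain ⟨x, hx, hxl⟩ := hT l
    have := hpq hx
    rw [Finset.mem_insert, Finset.mem_singleton] at this
    rcases this with rfl | rfl
    · exact h1 hxl
    · exact h2 hxl
  · obtain ⟨l, h1, h2⟩ := fano' p q
    obtain ⟨x, hx, hxl⟩ := hT l
    have := hpq hx
    rw [Finset.mem_insert, Finset.mem_singleton] at this
    rcases this with rfl | rfl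
    · exact h1 hxl
    · exact h2 hxl

lemma lower {k : ℕ} (S : Finset (Fin k × Bool × ZMod 7)) (hS : IsTotalDominating (K k) S) :
    6 * k ≤ S.card := by
  classical
  have h1 : S.card = ∑ p : Fin k × Bool, (S.filter (fun x => (x.1, x.2.1) = p)).card :=
    Finset.card_eq_sum_card_fiberwise (fun x _ => Finset.mem_coe.2 (Finset.mem_univ _))
  have h2 : ∀ p : Fin k × Bool, 3 ≤ (S.filter (fun x => (x.1, x.2.1) = p)).card := by
    rintro ⟨i, s⟩
    have h3 : 3 ≤ ((S.filter (fun x => (x.1, x.2.1) = (i, s))).image (fun x => x.2.2)).card := by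
      apply three
      cases s
      · left
        intro l
        obtain ⟨⟨j, t, b⟩, hu, h4, h5, h6⟩ := hS (i, true, l)
        simp only at h4 h5 h6
        refine ⟨b, ?_, ?_⟩
        · rw [Finset.mem_image]
          refine ⟨(j, t, b), ?_, rfl⟩
          rw [Finset.mem_filter]
          refine ⟨hu, ?_⟩
          cases t <;> simp_all
        · simpa using h6
      · right
        intro l
        obtain ⟨⟨j, t, b⟩, hu, h4, h5, h6⟩ := hS (i, false, l)
        simp only at h4 h5 h6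
        refine ⟨b, ?_, ?_⟩
        · rw [Finset.mem_image]
          refine ⟨(j, t, b), ?_, rfl⟩
          rw [Finset.mem_filter]
          refine ⟨hu, ?_⟩
          cases t <;> simp_all
        · simpa using h6
    exact h3.trans Finset.card_image_le
  calc 6 * k = ∑ _p : Fin k × Bool, 3 := by simp; ring
    _ ≤ ∑ p : Fin k × Bool, (S.filter (fun x => (x.1, x.2.1) = p)).card :=
        Finset.sum_le_sum (fun p _ => h2 p)
    _ = S.card := h1.symm

lemma fano3 : ∀ l : ZMod 7, ∃ p ∈ ({0, 1, 2} : Finset (ZMod 7)), l - p ∈ D := by decide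

lemma fano3' : ∀ l : ZMod 7, ∃ p ∈ ({0, 1, 2} : Finset (ZMod 7)), p - l ∈ D := by decide

lemma totalDomNum_K (k : ℕ) : totalDomNum (K k) = 6 * k := by
  have hup : IsTotalDominating (K k)
      (Finset.univ ×ˢ (Finset.univ ×ˢ ({0, 1, 2} : Finset (ZMod 7)))) := by
    rintro ⟨i, s, l⟩
    cases s
    · obtain ⟨p, hp, hpl⟩ := fano3' l
      refine ⟨(i, true, p), ?_, rfl, by simp, by simpa using hpl⟩
      rw [Finset.mem_product, Finset.mem_product]
      exact ⟨Finset.mem_univ _, Finset.mem_univ _, hp⟩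
    · obtain ⟨p, hp, hpl⟩ := fano3 l
      refine ⟨(i, false, p), ?_, rfl, by simp, by simpa using hpl⟩
      rw [Finset.mem_product, Finset.mem_product]
      exact ⟨Finset.mem_univ _, Finset.mem_univ _, hp⟩
  have hc : (Finset.univ ×ˢ (Finset.univ ×ˢ ({0, 1, 2} : Finset (ZMod 7))) :
      Finset (Fin k × Bool × ZMod 7)).card = 6 * k := by
    rw [Finset.card_product, Finset.card_product, Finset.card_univ, Finset.card_univ,
      Fintype.card_fin, Fintype.card_bool, show ({0, 1, 2} : Finset (ZMod 7)).card = 3 by decide]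
    ring
  apply le_antisymm
  · exact Nat.sInf_le ⟨_, hup, hc⟩
  · refine le_csInf ⟨6 * k, _, hup, hc⟩ ?_
    rintro m ⟨S, hS, rfl⟩
    exact lower S hS

/-- For all `k ≥ 2` there is a connected graph `G` of order `n = 14 k` with `δ*(G) = 4`,
`γ_t(G) + γ_t(Gᶜ) = 3 n / 7 + 2 > 2 n / 5 + 2` and `γ_t(G) γ_t(Gᶜ) = 6 n / 7 > 4 n / 5`. -/
theorem result (k : ℕ) (hk : 2 ≤ k) :
    ∃ (V : Type) (_ : Fintype V) (G : SimpleGraph V), Fintype.card V = 14 * k ∧
      G.Connected ∧ deltaStar G = 4 ∧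
      ((totalDomNum G : ℝ) + totalDomNum Gᶜ = 3 * (Fintype.card V : ℝ) / 7 + 2 ∧
        2 * (Fintype.card V : ℝ) / 5 + 2 < (totalDomNum G : ℝ) + totalDomNum Gᶜ) ∧
      ((totalDomNum G : ℝ) * totalDomNum Gᶜ = 6 * (Fintype.card V : ℝ) / 7 ∧
        4 * (Fintype.card V : ℝ) / 5 < (totalDomNum G : ℝ) * totalDomNum Gᶜ) := by
  have hk0 : (2 : ℝ) ≤ k := by exact_mod_cast hk
  refine ⟨Fin k × Bool × ZMod 7, inferInstance, (K k)ᶜ, card_V k, connected k hk,
    deltaStar_compl k (by omega), ?_⟩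
  rw [compl_compl, totalDomNum_K, totalDomNum_compl k hk, card_V]
  push_cast
  refine ⟨⟨by ring, by linarith⟩, by ring, by linarith⟩

end Pool.Agent.Results.MP_4101c8_co.ConnectedExtremal
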